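import Pool.Agent.Lib.helper3.AR4

namespace Pool.Agent.Results.MP_7faad7_pr.Dihedral

open MeasureTheory Pool.Agent.Lib.helper3.AR

def AR (G : Type) [Group G] : Prop :=
  letI : MeasurableSpace G := ⊤
  ∀ μ : PMF G, (∀ g, μ g⁻¹ = μ g) → Subgroup.closure μ.support = ⊤ → ∀ n : ℕ, 1 ≤ n →
    ∀ᵐ z ∂(Measure.infinitePi fun _ : ℕ => μ.toMeasure),
      Subsemigroup.closure (Set.range fun k : ℕ => ((List.range (n + k)).map z).prod) = ⊤

noncomputable def act : ℤˣ →* MulAut Z where
  toFun u :=
    { toFun x := x ^ (u : ℤ)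
      invFun x := x ^ (u : ℤ)
      left_inv x := by simp [← zpow_mul]
      right_inv x := by simp [← zpow_mul]
      map_mul' x y := mul_zpow x y _ }
  map_one' := by ext; simp
  map_mul' u v := by ext x; simp [← zpow_mul, mul_comm]

abbrev D := Z ⋊[act] ℤˣ

lemma inv_mem (S : Subsemigroup D) {x g : D} (hx : x ∈ S) (h : x.right ≠ 1) (hg : g ∈ S) :
    g⁻¹ ∈ S := by
  have h1 := Int.units_ne_iff_eq_neg.mp h
  rcases Int.units_eq_one_or g.right with h2 | h2
  · convert S.mul_mem (S.mul_mem hx hg) hx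
    ext <;> simp [h1, h2, act]
  · convert hg using 1
    ext <;> simp [h2, act]

theorem result : ∃ (G : Type) (_ : Group G) (_ : Countable G) (H : Subgroup G),
    H.FiniteIndex ∧ AR G ∧ ¬ AR H := by
  have : Countable D := SemidirectProduct.equivProd.injective.countable
  refine ⟨D, inferInstance, this, SemidirectProduct.inl.range, ?_, fun μ _ h2 n _ => ?_, fun h => ?_⟩
  · rw [SemidirectProduct.range_inl_eq_ker_rightHom]
    infer_instance
  · let : MeasurableSpace D := ⊤
    filter_upwards [ae_io μ] with z hz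
    obtain ⟨g, hg, h3⟩ : ∃ g ∈ μ.support, g.right ≠ 1 := by
      by_contra hc
      push Not at hc
      have := (Subgroup.closure_le (SemidirectProduct.rightHom (φ := act)).ker).mpr hc
        (h2 ▸ Subgroup.mem_top (SemidirectProduct.inr (-1)))
      simp at this
    obtain ⟨t, ht, rfl⟩ := hz g hg n
    obtain ⟨k, rfl⟩ := Nat.exists_eq_add_of_le ht
    obtain ⟨j, hj⟩ : ∃ j, (X z (n + j)).right ≠ 1 := by
      by_contra hc
      push Not at hc
      have := hc (k + 1)
      rw [← add_assoc, X_succ, SemidirectProduct.mul_right, hc, one_mul] at this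
      exact h3 this
    exact top_of_inv h2 z n (fun g hg => hz g hg n) fun k =>
      inv_mem _ (Subsemigroup.subset_closure ⟨j, rfl⟩) hj (Subsemigroup.subset_closure ⟨k, rfl⟩)
  · let : MeasurableSpace (SemidirectProduct.inl (φ := act)).range := ⊤
    obtain ⟨μ, h1, h2, h3⟩ := notAR_Z (MonoidHom.ofInjective (SemidirectProduct.inl_injective (φ := act)))
    exact h3 (h μ h1 h2 1 le_rfl)

end Pool.Agent.Results.MP_7faad7_pr.Dihedral
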